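import Pool.Agent.H13.SB.Defs

namespace H13SB.X

variable {G : Type*} [Group G]

theorem five_terms (y z : G) :
    (y * z * y * z⁻¹) * (z ^ 2 * (y * z * y * z⁻¹) * (z ^ 2)⁻¹) *
      (z ^ 4 * (y * z * y * z⁻¹) * (z ^ 4)⁻¹) * (z ^ 6 * (y * z * y * z⁻¹) * (z ^ 6)⁻¹) *
      (z ^ 8 * (y * z * y * z⁻¹) * (z ^ 8)⁻¹) = (y * z) ^ 10 * (z ^ 10)⁻¹ := by
  simp only [pow_succ, pow_zero, one_mul]
  group

/-- The tenth power of a boundary twist of a lantern is a product of six commutators. -/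
theorem lantern {x y z d1 d2 d3 v f g : G}
    (hx1 : Commute x d1) (hx2 : Commute x d2) (hx3 : Commute x d3) (hxv : Commute x v)
    (hy2 : Commute y d2)
    (hz1 : Commute z d1) (hz2 : Commute z d2) (hz3 : Commute z d3) (hzv : Commute z v)
    (h12 : Commute d1 d2) (h13 : Commute d1 d3) (h23 : Commute d2 d3)
    (hv1 : Commute v d1) (hv2 : Commute v d2) (hv3 : Commute v d3)
    (hxyz : x * y * z = v * d1 * d2 * d3)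
    (hf1 : f * z = d1 * f) (hf2 : f * d3 = x * f)
    (hg1 : g * y = d2 * g) (hg2 : g * d2 = z * y * z⁻¹ * g) :
    cm (z ^ 10 * (d3 ^ 10)⁻¹) f *
      (cm (y * d2⁻¹) g *
      cm (z ^ 2 * y * (z ^ 2)⁻¹ * d2⁻¹) (z ^ 2 * g * (z ^ 2)⁻¹) *
      cm (z ^ 4 * y * (z ^ 4)⁻¹ * d2⁻¹) (z ^ 4 * g * (z ^ 4)⁻¹) *
      cm (z ^ 6 * y * (z ^ 6)⁻¹ * d2⁻¹) (z ^ 6 * g * (z ^ 6)⁻¹) *
      cm (z ^ 8 * y * (z ^ 8)⁻¹ * d2⁻¹) (z ^ 8 * g * (z ^ 8)⁻¹)) = v ^ 10 := by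
  have hf1' : f * z * f⁻¹ = d1 := by rw [hf1]; group
  have hf2' : f * d3 * f⁻¹ = x := by rw [hf2]; group
  have hg1' : g * y * g⁻¹ = d2 := by rw [hg1]; group
  have hg2' : g * d2 * g⁻¹ = z * y * z⁻¹ := by rw [hg2]; group
  have e1 : cm (z ^ 10 * (d3 ^ 10)⁻¹) f = z ^ 10 * (d3 ^ 10)⁻¹ * (x ^ 10 * (d1 ^ 10)⁻¹) := by
    have : f * (z ^ 10 * (d3 ^ 10)⁻¹) * f⁻¹ = (f * z * f⁻¹) ^ 10 * ((f * d3 * f⁻¹) ^ 10)⁻¹ := by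
      rw [conj_pow, conj_pow]; group
    rw [hf1', hf2'] at this
    calc cm (z ^ 10 * (d3 ^ 10)⁻¹) f
        = z ^ 10 * (d3 ^ 10)⁻¹ * (f * (z ^ 10 * (d3 ^ 10)⁻¹) * f⁻¹)⁻¹ := by rw [cm]; group
      _ = _ := by rw [this]; group
  have e2 : cm (y * d2⁻¹) g = y * z * y * z⁻¹ * (d2⁻¹) ^ 2 := by
    have : g * (y * d2⁻¹) * g⁻¹ = (g * y * g⁻¹) * (g * d2 * g⁻¹)⁻¹ := by group
    rw [hg1', hg2'] at this
    have c1 : d2⁻¹ * (z * y * z⁻¹) = (z * y * z⁻¹) * d2⁻¹ :=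
      ((((hz2.mul_left hy2).mul_left hz2.inv_left).symm).inv_left).eq
    calc cm (y * d2⁻¹) g = y * d2⁻¹ * (g * (y * d2⁻¹) * g⁻¹)⁻¹ := by rw [cm]; group
      _ = y * (d2⁻¹ * (z * y * z⁻¹)) * d2⁻¹ := by rw [this]; group
      _ = _ := by rw [c1]; group
  have e3 : ∀ n : ℕ, cm (z ^ n * y * (z ^ n)⁻¹ * d2⁻¹) (z ^ n * g * (z ^ n)⁻¹) =
      z ^ n * (y * z * y * z⁻¹) * (z ^ n)⁻¹ * (d2⁻¹) ^ 2 := by
    intro n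
    have c2 : z ^ n * d2⁻¹ * (z ^ n)⁻¹ = d2⁻¹ := by
      rw [(hz2.inv_right.pow_left n).eq]; group
    have c3 : (d2⁻¹) ^ 2 * (z ^ n)⁻¹ = (z ^ n)⁻¹ * (d2⁻¹) ^ 2 :=
      (((hz2.inv_right.pow_left n).inv_left).symm.pow_left 2).eq
    calc cm (z ^ n * y * (z ^ n)⁻¹ * d2⁻¹) (z ^ n * g * (z ^ n)⁻¹)
        = cm (z ^ n * y * (z ^ n)⁻¹ * (z ^ n * d2⁻¹ * (z ^ n)⁻¹)) (z ^ n * g * (z ^ n)⁻¹) := by
          rw [c2]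
      _ = z ^ n * cm (y * d2⁻¹) g * (z ^ n)⁻¹ := by rw [cm, cm]; group
      _ = z ^ n * (y * z * y * z⁻¹) * ((d2⁻¹) ^ 2 * (z ^ n)⁻¹) := by rw [e2]; group
      _ = _ := by rw [c3]; group
  have hT : Commute x (v * d1 * d2 * d3) :=
    ((hxv.mul_right hx1).mul_right hx2).mul_right hx3
  have hyz : y * z = x⁻¹ * (v * d1 * d2 * d3) := by rw [← hxyz]; group
  have hT10 : (v * d1 * d2 * d3) ^ 10 = v ^ 10 * d1 ^ 10 * d2 ^ 10 * d3 ^ 10 := by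
    rw [Commute.mul_pow ((hv3.mul_left h13).mul_left h23),
      Commute.mul_pow (hv2.mul_left h12), Commute.mul_pow hv1]
  have hyz10 : (y * z) ^ 10 = (x ^ 10)⁻¹ * (v ^ 10 * d1 ^ 10 * d2 ^ 10 * d3 ^ 10) := by
    rw [hyz, Commute.mul_pow hT.inv_left, hT10, inv_pow]
  have cz : ∀ n : ℕ, Commute ((d2⁻¹) ^ 2) (z ^ n * (y * z * y * z⁻¹) * (z ^ n)⁻¹) := by
    intro n
    have a1 : Commute (d2⁻¹ ^ 2) z := (hz2.symm.inv_left).pow_left 2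
    have a2 : Commute (d2⁻¹ ^ 2) y := (hy2.symm.inv_left).pow_left 2
    exact (((a1.pow_right n).mul_right (((a2.mul_right a1).mul_right a2).mul_right
      a1.inv_right)).mul_right (a1.pow_right n).inv_right)
  have e4 : cm (y * d2⁻¹) g *
      cm (z ^ 2 * y * (z ^ 2)⁻¹ * d2⁻¹) (z ^ 2 * g * (z ^ 2)⁻¹) *
      cm (z ^ 4 * y * (z ^ 4)⁻¹ * d2⁻¹) (z ^ 4 * g * (z ^ 4)⁻¹) *
      cm (z ^ 6 * y * (z ^ 6)⁻¹ * d2⁻¹) (z ^ 6 * g * (z ^ 6)⁻¹) *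
      cm (z ^ 8 * y * (z ^ 8)⁻¹ * d2⁻¹) (z ^ 8 * g * (z ^ 8)⁻¹) =
      (y * z) ^ 10 * (z ^ 10)⁻¹ * (d2 ^ 10)⁻¹ := by
    rw [e2, e3 2, e3 4, e3 6, e3 8, ← five_terms]
    have b2 := (cz 2).eq
    have b4 := (cz 4).eq
    have b6 := (cz 6).eq
    have b8 := (cz 8).eq
    generalize z ^ 2 * (y * z * y * z⁻¹) * (z ^ 2)⁻¹ = q2 at *
    generalize z ^ 4 * (y * z * y * z⁻¹) * (z ^ 4)⁻¹ = q4 at *
    generalize z ^ 6 * (y * z * y * z⁻¹) * (z ^ 6)⁻¹ = q6 at *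
    generalize z ^ 8 * (y * z * y * z⁻¹) * (z ^ 8)⁻¹ = q8 at *
    generalize y * z * y * z⁻¹ = q0 at *
    have hd : (d2 ^ 10)⁻¹ = d2⁻¹ ^ 2 * d2⁻¹ ^ 2 * d2⁻¹ ^ 2 * d2⁻¹ ^ 2 * d2⁻¹ ^ 2 := by
      simp only [pow_succ, pow_zero, one_mul]; group
    rw [hd]
    generalize d2⁻¹ ^ 2 = w at *
    have b2' : ∀ t, w * (q2 * t) = q2 * (w * t) := fun t => by rw [← mul_assoc, b2, mul_assoc]
    have b4' : ∀ t, w * (q4 * t) = q4 * (w * t) := fun t => by rw [← mul_assoc, b4, mul_assoc]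
    have b6' : ∀ t, w * (q6 * t) = q6 * (w * t) := fun t => by rw [← mul_assoc, b6, mul_assoc]
    have b8' : ∀ t, w * (q8 * t) = q8 * (w * t) := fun t => by rw [← mul_assoc, b8, mul_assoc]
    simp only [mul_assoc, b2', b4', b6', b8']
  rw [e1, e4, hyz10]
  have k1 : Commute (d3 ^ 10) (x ^ 10) := (hx3.symm.pow_pow 10 10)
  have k2 : Commute (d1 ^ 10) (x ^ 10) := (hx1.symm.pow_pow 10 10)
  have k3 : Commute (d1 ^ 10) (v ^ 10) := (hv1.symm.pow_pow 10 10)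
  have k4 : Commute (d3 ^ 10) (v ^ 10) := (hv3.symm.pow_pow 10 10)
  have k5 : Commute (d3 ^ 10) (z ^ 10) := (hz3.symm.pow_pow 10 10)
  have k6 : Commute (d2 ^ 10) (z ^ 10) := (hz2.symm.pow_pow 10 10)
  have k7 : Commute (z ^ 10) (v ^ 10) := (hzv.pow_pow 10 10)
  have k8 : Commute (d2 ^ 10) (d3 ^ 10) := (h23.pow_pow 10 10)
  generalize d1 ^ 10 = D1 at *
  generalize d2 ^ 10 = D2 at *
  generalize d3 ^ 10 = D3 at *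
  generalize x ^ 10 = X at *
  generalize z ^ 10 = Z at *
  generalize v ^ 10 = V at *
  calc Z * D3⁻¹ * (X * D1⁻¹) * (X⁻¹ * (V * D1 * D2 * D3) * Z⁻¹ * D2⁻¹)
      = Z * D3⁻¹ * X * (D1⁻¹ * X⁻¹) * V * D1 * D2 * (D3 * Z⁻¹) * D2⁻¹ := by group
    _ = Z * D3⁻¹ * X * (X⁻¹ * D1⁻¹) * V * D1 * D2 * (Z⁻¹ * D3) * D2⁻¹ := by
        rw [(k2.inv_left.inv_right).eq, (k5.inv_right).eq]
    _ = Z * D3⁻¹ * (D1⁻¹ * V) * D1 * (D2 * Z⁻¹) * D3 * D2⁻¹ := by group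
    _ = Z * D3⁻¹ * (V * D1⁻¹) * D1 * (Z⁻¹ * D2) * D3 * D2⁻¹ := by
        rw [(k3.inv_left).eq, (k6.inv_right).eq]
    _ = Z * (D3⁻¹ * V) * Z⁻¹ * (D2 * D3) * D2⁻¹ := by group
    _ = Z * (V * D3⁻¹) * Z⁻¹ * (D3 * D2) * D2⁻¹ := by rw [(k4.inv_left).eq, k8.eq]
    _ = Z * V * (D3⁻¹ * Z⁻¹) * D3 := by group
    _ = Z * V * (Z⁻¹ * D3⁻¹) * D3 := by rw [(k5.inv_left.inv_right).eq]
    _ = (Z * V) * Z⁻¹ := by group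
    _ = (V * Z) * Z⁻¹ := by rw [k7.eq]
    _ = V := by group

end H13SB.X
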