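import Pool.Agent.H13.SB.X.Rels
import Pool.Agent.H13.SB.X.Lantern

/-!
# The representation of the surface group of genus nine
-/

namespace H13SB.X

/-- `n` copies of a word. -/
def rep (n : ℕ) (w : List ℕ) : List ℕ := (List.replicate n w).flatten

/-- `Y^n w Y^{-n}`. -/
def cY (n : ℕ) (w : List ℕ) : List ℕ := rep n wY ++ w ++ iv (rep n wY)

/-- The words for `a_0, ..., a_8`. -/
def al (i : Fin 9) : List ℕ :=
  match i with
  | 0 => wA1
  | 1 => wA1
  | 2 => wA3
  | 3 => rep 10 wY ++ iv (rep 10 [0])
  | 4 => [14] ++ [5]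
  | 5 => cY 2 [14] ++ [5]
  | 6 => cY 4 [14] ++ [5]
  | 7 => cY 6 [14] ++ [5]
  | 8 => cY 8 [14] ++ [5]

/-- The words for `b_0, ..., b_8`. -/
def be (i : Fin 9) : List ℕ :=
  match i with
  | 0 => wP1
  | 1 => wP2
  | 2 => wP3
  | 3 => wH
  | 4 => wG
  | 5 => cY 2 wG
  | 6 => cY 4 wG
  | 7 => cY 6 wG
  | 8 => cY 8 wG

theorem twist_linv {k : ℕ} (h : k < 18) : twist (linv k) = (twist k)⁻¹ := by
  rw [eq_inv_iff_mul_eq_one]
  apply MulEquiv.toMonoidHom_injective
  rw [twist, twist, dif_pos h, dif_pos (linv_lt k h)]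
  exact endo_comp _ _ (okT_tabs _ (linv_lt k h)) (invT_tabs' k h)

theorem auto_iv_aux (u acc : List ℕ) (h : ∀ k ∈ u, k < 18) :
    auto (u.foldl (fun acc n => linv n :: acc) acc) = (auto u)⁻¹ * auto acc := by
  induction u generalizing acc with
  | nil => simp [auto_nil]
  | cons n u ih =>
    rw [List.foldl_cons, ih _ (fun j hj => h j (List.mem_cons_of_mem _ hj)), auto_cons,
      auto_cons, twist_linv (h n List.mem_cons_self)]
    group

theorem auto_iv (u : List ℕ) (h : ∀ k ∈ u, k < 18) : auto (iv u) = (auto u)⁻¹ := by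
  rw [iv, winv, auto_iv_aux u [] h, auto_nil, mul_one]

theorem auto_rep (n : ℕ) (w : List ℕ) : auto (rep n w) = auto w ^ n := by
  induction n with
  | zero => simp [rep, auto_nil]
  | succ n ih =>
    rw [rep, List.replicate_succ, List.flatten_cons, auto_append, pow_succ', ← ih]
    rfl

theorem mem_rep {n : ℕ} {w : List ℕ} {k : ℕ} (h : k ∈ rep n w) : k ∈ w := by
  rw [rep, List.mem_flatten] at h
  obtain ⟨l, hl, hk⟩ := h
  rw [List.eq_of_mem_replicate hl] at hk
  exact hk

theorem lt_wY : ∀ k ∈ wY, k < 18 := by decide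
theorem lt_wA1 : ∀ k ∈ wA1, k < 18 := by decide
theorem lt_wP1 : ∀ k ∈ wP1, k < 18 := by decide
theorem lt_wP2 : ∀ k ∈ wP2, k < 18 := by decide
theorem lt_wA3 : ∀ k ∈ wA3, k < 18 := by decide
theorem lt_wP3 : ∀ k ∈ wP3, k < 18 := by decide

theorem auto_cY (n : ℕ) (w : List ℕ) :
    auto (cY n w) = auto wY ^ n * auto w * (auto wY ^ n)⁻¹ := by
  rw [cY, auto_append, auto_append, auto_iv _ (fun k hk => lt_wY k (mem_rep hk)), auto_rep]

theorem auto_wcm (u v : List ℕ) (hu : ∀ k ∈ u, k < 18) (hv : ∀ k ∈ v, k < 18) :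
    auto (wcm u v) = cm (auto u) (auto v) := by
  rw [wcm, auto_append, auto_append, auto_append, auto_iv _ hu, auto_iv _ hv, cm]

theorem auto_single (k : ℕ) : auto [k] = twist k := by simp [auto]
theorem auto_pair (k l : ℕ) : auto [k, l] = twist k * twist l := by simp [auto]

theorem lantern_part :
    cm (auto (al 3)) (auto (be 3)) * (cm (auto (al 4)) (auto (be 4)) *
      cm (auto (al 5)) (auto (be 5)) * cm (auto (al 6)) (auto (be 6)) *
      cm (auto (al 7)) (auto (be 7)) * cm (auto (al 8)) (auto (be 8))) = twist 8 ^ 10 := by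
  have t5 : twist 5 = (twist 4)⁻¹ := twist_linv (k := 4) (by norm_num)
  have h := lantern (x := twist 12) (y := twist 14) (z := auto wY) (d1 := twist 16)
    (d2 := twist 4) (d3 := twist 0) (v := twist 8) (f := auto wH) (g := auto wG)
    (by rw [Commute, SemiconjBy, ← auto_pair, ← auto_pair]; exact com_12_16)
    (by rw [Commute, SemiconjBy, ← auto_pair, ← auto_pair]; exact com_12_4)
    (by rw [Commute, SemiconjBy, ← auto_pair, ← auto_pair]; exact com_12_0)
    (by rw [Commute, SemiconjBy, ← auto_pair, ← auto_pair]; exact com_12_8)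
    (by rw [Commute, SemiconjBy, ← auto_pair, ← auto_pair]; exact com_14_4)
    (by rw [Commute, SemiconjBy, ← auto_single, ← auto_append, ← auto_append]; exact com_Y_16)
    (by rw [Commute, SemiconjBy, ← auto_single, ← auto_append, ← auto_append]; exact com_Y_4)
    (by rw [Commute, SemiconjBy, ← auto_single, ← auto_append, ← auto_append]; exact com_Y_0)
    (by rw [Commute, SemiconjBy, ← auto_single, ← auto_append, ← auto_append]; exact com_Y_8)
    (by rw [Commute, SemiconjBy, ← auto_pair, ← auto_pair]; exact com_4_16.symm)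
    (by rw [Commute, SemiconjBy, ← auto_pair, ← auto_pair]; exact com_0_16.symm)
    (by rw [Commute, SemiconjBy, ← auto_pair, ← auto_pair]; exact com_0_4.symm)
    (by rw [Commute, SemiconjBy, ← auto_pair, ← auto_pair]; exact com_8_16)
    (by rw [Commute, SemiconjBy, ← auto_pair, ← auto_pair]; exact com_4_8.symm)
    (by rw [Commute, SemiconjBy, ← auto_pair, ← auto_pair]; exact com_0_8.symm)
    (by
      have := rel_xyz
      rw [auto_append, auto_pair] at this
      rw [this]; simp [auto, mul_assoc])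
    (by
      have := rel_H1
      rw [auto_append, auto_cons] at this
      exact this)
    (by
      have := rel_H2
      rw [auto_append, auto_single, auto_cons 12 wH] at this
      exact this)
    (by
      have := rel_G1
      rw [auto_append, auto_single, auto_cons 4 wG] at this
      exact this)
    (by
      have := rel_G2
      rw [auto_append, auto_append, auto_append, auto_append, auto_single, auto_single,
        auto_iv _ lt_wY] at this
      exact this)
  have e3 : auto (al 3) = auto wY ^ 10 * (twist 0 ^ 10)⁻¹ := by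
    change auto (rep 10 wY ++ iv (rep 10 [0])) = _
    rw [auto_append, auto_iv _ (fun k hk => by
      have := mem_rep hk; simp at this; omega), auto_rep, auto_rep, auto_single]
  have e4 : auto (al 4) = twist 14 * (twist 4)⁻¹ := by
    change auto ([14] ++ [5]) = _
    rw [auto_append, auto_single, auto_single, t5]
  have e5 : auto (al 5) = auto wY ^ 2 * twist 14 * (auto wY ^ 2)⁻¹ * (twist 4)⁻¹ := by
    change auto (cY 2 [14] ++ [5]) = _
    rw [auto_append, auto_cY, auto_single, auto_single, t5]
  have e6 : auto (al 6) = auto wY ^ 4 * twist 14 * (auto wY ^ 4)⁻¹ * (twist 4)⁻¹ := by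
    change auto (cY 4 [14] ++ [5]) = _
    rw [auto_append, auto_cY, auto_single, auto_single, t5]
  have e7 : auto (al 7) = auto wY ^ 6 * twist 14 * (auto wY ^ 6)⁻¹ * (twist 4)⁻¹ := by
    change auto (cY 6 [14] ++ [5]) = _
    rw [auto_append, auto_cY, auto_single, auto_single, t5]
  have e8 : auto (al 8) = auto wY ^ 8 * twist 14 * (auto wY ^ 8)⁻¹ * (twist 4)⁻¹ := by
    change auto (cY 8 [14] ++ [5]) = _
    rw [auto_append, auto_cY, auto_single, auto_single, t5]
  have f3 : auto (be 3) = auto wH := rfl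
  have f4 : auto (be 4) = auto wG := rfl
  have f5 : auto (be 5) = auto wY ^ 2 * auto wG * (auto wY ^ 2)⁻¹ := auto_cY 2 wG
  have f6 : auto (be 6) = auto wY ^ 4 * auto wG * (auto wY ^ 4)⁻¹ := auto_cY 4 wG
  have f7 : auto (be 7) = auto wY ^ 6 * auto wG * (auto wY ^ 6)⁻¹ := auto_cY 6 wG
  have f8 : auto (be 8) = auto wY ^ 8 * auto wG * (auto wY ^ 8)⁻¹ := auto_cY 8 wG
  rw [e3, e4, e5, e6, e7, e8, f3, f4, f5, f6, f7, f8]
  exact h

theorem rep_rel : (List.ofFn fun i : Fin 9 => cm (auto (al i)) (auto (be i))).prod = 1 := by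
  have h := rel_chain
  rw [auto_append, auto_append, auto_append, auto_wcm _ _ lt_wA1 lt_wP1,
    auto_wcm _ _ lt_wA1 lt_wP2, auto_wcm _ _ lt_wA3 lt_wP3, auto_nil] at h
  have h8 : auto [8, 8, 8, 8, 8, 8, 8, 8, 8, 8] = twist 8 ^ 10 := by
    simp only [auto, List.map_cons, List.map_nil, List.prod_cons, List.prod_nil]
    simp only [pow_succ, pow_zero, one_mul, mul_one, mul_assoc]
  rw [h8, ← lantern_part] at h
  have h9 : (List.ofFn fun i : Fin 9 => cm (auto (al i)) (auto (be i))).prod =
      cm (auto (al 0)) (auto (be 0)) * cm (auto (al 1)) (auto (be 1)) *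
      cm (auto (al 2)) (auto (be 2)) * (cm (auto (al 3)) (auto (be 3)) *
      (cm (auto (al 4)) (auto (be 4)) *
      cm (auto (al 5)) (auto (be 5)) * cm (auto (al 6)) (auto (be 6)) *
      cm (auto (al 7)) (auto (be 7)) * cm (auto (al 8)) (auto (be 8)))) := by
    simp only [List.ofFn_succ, List.ofFn_zero, List.prod_cons, List.prod_nil, mul_one]
    simp only [mul_assoc]
    rfl
  rw [h9]
  exact h

theorem rho_aux : ∀ r ∈ ({surfRel 9} : Set (FreeGroup (Gen 9))),
    FreeGroup.lift (fun x : Gen 9 => if x.2 then auto (be x.1) else auto (al x.1)) r = 1 := by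
  intro r hr
  rw [Set.mem_singleton_iff] at hr
  subst hr
  rw [surfRel, map_list_prod, List.map_ofFn, ← rep_rel]
  congr 2

/-- The representation. -/
def rho : SurfaceGroup 9 →* MulAut F3 := PresentedGroup.toGroup rho_aux

theorem rho_a (i : Fin 9) : rho (sgen (i, false)) = auto (al i) := by
  rw [rho, sgen, PresentedGroup.toGroup.of]; simp

theorem rho_b (i : Fin 9) : rho (sgen (i, true)) = auto (be i) := by
  rw [rho, sgen, PresentedGroup.toGroup.of]; simp

theorem surfRel3 : surfRel 3 = wval [0, 2, 1, 3, 4, 6, 5, 7, 8, 10, 9, 11] := by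
  simp only [surfRel, List.ofFn_succ, List.ofFn_zero, List.prod_cons, List.prod_nil, mul_one, cm]
  simp only [wval, List.map_cons, List.map_nil, List.prod_cons, List.prod_nil, mul_one, val,
    gcode, mul_assoc]
  rfl

theorem twist_surfRel (k : ℕ) : twist k (surfRel 3) = surfRel 3 := by
  by_cases h : k < 18
  · rw [surfRel3, twist_apply h]
    congr 1
    revert k
    decide +kernel
  · rw [twist, dif_neg h]; rfl

theorem auto_surfRel (w : List ℕ) : auto w (surfRel 3) = surfRel 3 := by
  induction w with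
  | nil => rfl
  | cons k w ih => rw [auto_cons, MulAut.mul_apply, ih, twist_surfRel]

theorem mem_of_gens {b : ℕ} (H : Subgroup (SurfaceGroup b)) (h : ∀ x, sgen x ∈ H) :
    ∀ y, y ∈ H := by
  have h1 : Subgroup.closure (Set.range (PresentedGroup.of (rels := {surfRel b}))) ≤ H := by
    rw [Subgroup.closure_le]
    rintro _ ⟨x, rfl⟩
    exact h x
  rw [PresentedGroup.closure_range_of] at h1
  exact fun y => h1 (Subgroup.mem_top y)

/-- The piece with nonzero signature. -/
def piece : Piece (SurfaceGroup 9) 3 where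
  ρ := rho
  bdry γ := by
    have h := mem_of_gens ((MulAction.stabilizer (MulAut F3) (surfRel 3)).comap rho) (fun x => by
      rw [Subgroup.mem_comap, MulAction.mem_stabilizer_iff]
      rcases x with ⟨i, t⟩
      cases t
      · rw [rho_a]; exact auto_surfRel _
      · rw [rho_b]; exact auto_surfRel _) γ
    rw [Subgroup.mem_comap, MulAction.mem_stabilizer_iff] at h
    exact h

end H13SB.X
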