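import Pool.Agent.H13.SB.Class

/-!
# A calculator for automorphisms of the free group on `Gen 3`

Letters are coded by natural numbers `< 12`: `2i` is the `i`-th generator, `2i+1` its inverse;
the generators are `(0,false), (0,true), (1,false), (1,true), (2,false), (2,true)`.
-/

namespace H13SB.X

abbrev F3 : Type := FreeGroup (Gen 3)

/-- The `i`-th generator, `i < 6`. -/
def gcode (i : ℕ) : Gen 3 := (⟨i / 2 % 3, Nat.mod_lt _ (by norm_num)⟩, Nat.beq (i % 2) 1)

/-- The index of a generator. -/
def idx (x : Gen 3) : ℕ := 2 * x.1.val + (if x.2 then 1 else 0)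

theorem gcode_idx (x : Gen 3) : gcode (idx x) = x := by
  revert x; decide

theorem idx_lt (x : Gen 3) : idx x < 6 := by
  revert x; decide

theorem idx_gcode : ∀ i < 6, idx (gcode i) = i := by decide

/-- The value of a letter. -/
def val (n : ℕ) : F3 :=
  if n < 12 then (if n % 2 = 0 then FreeGroup.of (gcode (n / 2))
    else (FreeGroup.of (gcode (n / 2)))⁻¹) else 1

/-- The inverse letter. -/
def linv (n : ℕ) : ℕ := bif Nat.beq (n % 2) 0 then n + 1 else n - 1

theorem val_linv (n : ℕ) : val (linv n) = (val n)⁻¹ := by
  by_cases h : n % 2 = 0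
  · have h1 : linv n = n + 1 := by simp [linv, h]
    rw [h1, val, val]
    by_cases h2 : n < 12
    · have h3 : n + 1 < 12 := by omega
      have h4 : ¬ (n + 1) % 2 = 0 := by omega
      have h5 : (n + 1) / 2 = n / 2 := by omega
      simp [h2, h3, h4, h5, h]
    · have h3 : ¬ n + 1 < 12 := by omega
      simp [h2, h3]
  · have h1 : linv n = n - 1 := by
      have : n % 2 = 1 := by omega
      simp only [linv, this]; rfl
    rw [h1, val, val]
    by_cases h2 : n < 12
    · have h3 : n - 1 < 12 := by omega
      have h4 : (n - 1) % 2 = 0 := by omega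
      have h5 : (n - 1) / 2 = n / 2 := by omega
      simp [h2, h3, h4, h5, h]
    · have h3 : ¬ n - 1 < 12 := by omega
      simp [h2, h3]

/-- The value of a word. -/
def wval (w : List ℕ) : F3 := (w.map val).prod

theorem wval_nil : wval [] = 1 := rfl
theorem wval_cons (n : ℕ) (w : List ℕ) : wval (n :: w) = val n * wval w := by simp [wval]
theorem wval_append (u w : List ℕ) : wval (u ++ w) = wval u * wval w := by simp [wval]

/-- Multiply by a letter on the left, with cancellation. -/
def push (n : ℕ) : List ℕ → List ℕ
  | [] => [n]
  | m :: t => bif Nat.beq (linv n) m then t else n :: m :: t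

theorem wval_push (n : ℕ) (w : List ℕ) : wval (push n w) = val n * wval w := by
  cases w with
  | nil => rfl
  | cons m t =>
    by_cases h : linv n = m
    · have h1 : push n (m :: t) = t := by simp [push, h]
      rw [h1, wval_cons, ← h, val_linv]; group
    · have h1 : push n (m :: t) = n :: m :: t := by
        have : Nat.beq (linv n) m = false := by
          rw [Bool.eq_false_iff]; intro h2; exact h (Nat.eq_of_beq_eq_true h2)
        simp [push, this]
      rw [h1, wval_cons]

/-- Product of two words, with cancellation. -/
def pushL (u w : List ℕ) : List ℕ := u.foldr push w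

theorem wval_pushL (u w : List ℕ) : wval (pushL u w) = wval u * wval w := by
  induction u with
  | nil => simp [pushL, wval_nil]
  | cons n u ih =>
    rw [pushL, List.foldr_cons, wval_push, wval_cons, mul_assoc]
    congr 1

/-- Substitution. -/
def subst (T : List (List ℕ)) (w : List ℕ) : List ℕ :=
  w.foldr (fun n acc => pushL (T.getD n []) acc) []

theorem wval_subst (T : List (List ℕ)) (f : F3 →* F3)
    (h : ∀ n, f (val n) = wval (T.getD n [])) (w : List ℕ) : wval (subst T w) = f (wval w) := by
  induction w with
  | nil => simp [subst, wval_nil]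
  | cons n w ih =>
    rw [subst, List.foldr_cons, wval_pushL, wval_cons, map_mul, h]
    congr 1

/-- The inverse word. -/
def winv (w : List ℕ) : List ℕ := w.foldl (fun acc n => linv n :: acc) []

theorem wval_winv_aux (w acc : List ℕ) :
    wval (w.foldl (fun acc n => linv n :: acc) acc) = (wval w)⁻¹ * wval acc := by
  induction w generalizing acc with
  | nil => simp [wval_nil]
  | cons n w ih =>
    rw [List.foldl_cons, ih, wval_cons, wval_cons, val_linv]; group

theorem wval_winv (w : List ℕ) : wval (winv w) = (wval w)⁻¹ := by
  rw [winv, wval_winv_aux, wval_nil, mul_one]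

/-- The endomorphism with table `T`. -/
def endo (T : List (List ℕ)) : F3 →* F3 :=
  FreeGroup.lift fun x => wval (T.getD (2 * idx x) [])

/-- The table has twelve entries and the odd entries are the inverses of the even ones. -/
def okT (T : List (List ℕ)) : Bool :=
  Nat.beq T.length 12 && (List.range 6).all fun i =>
    (T.getD (2 * i + 1) []) == winv (T.getD (2 * i) [])

theorem endo_val (T : List (List ℕ)) (hT : okT T = true) (n : ℕ) :
    endo T (val n) = wval (T.getD n []) := by
  rw [okT, Bool.and_eq_true, List.all_eq_true] at hT
  obtain ⟨h1, h2⟩ := hT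
  have hl : T.length = 12 := Nat.eq_of_beq_eq_true h1
  by_cases h : n < 12
  · have h3 : n / 2 < 6 := by omega
    by_cases h4 : n % 2 = 0
    · simp only [val, h, h4, if_true, endo, FreeGroup.lift_apply_of, idx_gcode _ h3]
      congr 2; omega
    · simp only [val, h, h4, if_true, if_false, endo, map_inv, FreeGroup.lift_apply_of,
        idx_gcode _ h3]
      have h5 := h2 (n / 2) (List.mem_range.2 h3)
      rw [beq_iff_eq] at h5
      rw [← wval_winv, ← h5]
      congr 2; omega
  · have h5 : T.getD n [] = [] := by
      rw [List.getD_eq_getElem?_getD, List.getElem?_eq_none (by omega)]; rfl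
    rw [h5, wval_nil, val, if_neg h, map_one]

/-- `T'` is the inverse table of `T`. -/
def invT (T T' : List (List ℕ)) : Bool :=
  (List.range 6).all fun i => subst T (T'.getD (2 * i) []) == [2 * i]

theorem endo_comp (T T' : List (List ℕ)) (hT : okT T = true) (h : invT T T' = true) :
    (endo T).comp (endo T') = MonoidHom.id _ := by
  apply FreeGroup.ext_hom
  intro x
  rw [invT, List.all_eq_true] at h
  have h1 := h (idx x) (List.mem_range.2 (idx_lt x))
  rw [beq_iff_eq] at h1
  rw [MonoidHom.comp_apply, endo, endo, FreeGroup.lift_apply_of]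
  change endo T _ = _
  rw [← wval_subst T (endo T) (endo_val T hT), h1]
  have h2 : idx x < 6 := idx_lt x
  have h3 : 2 * idx x < 12 := by omega
  have h4 : 2 * idx x % 2 = 0 := by omega
  have h5 : 2 * idx x / 2 = idx x := by omega
  simp [wval, val, h3, h4, h5, gcode_idx]

/-- The automorphism with table `T` and inverse table `T'`. -/
def mkAut (T T' : List (List ℕ)) (h1 : okT T = true) (h2 : okT T' = true)
    (h3 : invT T T' = true) (h4 : invT T' T = true) : MulAut F3 :=
  MonoidHom.toMulEquiv (endo T) (endo T') (endo_comp T' T h2 h4) (endo_comp T T' h1 h3)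

end H13SB.X
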