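import Pool.Agent.H13.SB.X.Tab

/-!
# Relations between the twists, checked by the kernel
-/

namespace H13SB.X

/-- `A` for the first two commutators. -/
def wA1 : List ℕ := [2, 0, 4, 3, 9, 9]
def wP1 : List ℕ := [1, 3, 11, 9, 7, 5, 3, 1, 13, 7, 8, 10, 5, 6, 8, 3, 4, 6, 3]
def wP2 : List ℕ := [1, 3, 11, 9, 7, 5, 3, 1, 12, 6, 8, 10, 4, 6, 8, 2, 4, 6, 3]
def wA3 : List ℕ := [0, 0, 9, 9]
def wP3 : List ℕ := [7, 5, 3, 1, 9, 7, 5, 3]
/-- The third interior curve of the lantern. -/
def wY : List ℕ := [15, 13, 0, 4, 8, 16]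
def wG : List ℕ := [7, 5, 9, 12, 6, 3, 5, 2, 6, 8, 13, 4, 6, 2, 4, 4, 0, 2]
def wH : List ℕ := [10, 8, 7, 4, 13, 6, 9, 11, 2, 4, 0, 2]
def iv (w : List ℕ) : List ℕ := winv w
def wcm (u v : List ℕ) : List ℕ := u ++ v ++ iv u ++ iv v

theorem rel_chain : auto (wcm wA1 wP1 ++ wcm wA1 wP2 ++ wcm wA3 wP3 ++
    [8, 8, 8, 8, 8, 8, 8, 8, 8, 8]) = auto [] := auto_eq (by decide +kernel)

theorem rel_H1 : auto (wH ++ wY) = auto (16 :: wH) := auto_eq (by decide +kernel)
theorem rel_H2 : auto (wH ++ [0]) = auto (12 :: wH) := auto_eq (by decide +kernel)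
theorem rel_G1 : auto (wG ++ [14]) = auto (4 :: wG) := auto_eq (by decide +kernel)
theorem rel_G2 : auto (wG ++ [4]) = auto (wY ++ [14] ++ iv wY ++ wG) :=
  auto_eq (by decide +kernel)
theorem rel_xyz : auto ([12, 14] ++ wY) = auto [8, 16, 4, 0] := auto_eq (by decide +kernel)

theorem com_12_0 : auto [12, 0] = auto [0, 12] := auto_eq (by decide +kernel)
theorem com_12_4 : auto [12, 4] = auto [4, 12] := auto_eq (by decide +kernel)
theorem com_12_8 : auto [12, 8] = auto [8, 12] := auto_eq (by decide +kernel)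
theorem com_12_16 : auto [12, 16] = auto [16, 12] := auto_eq (by decide +kernel)
theorem com_14_0 : auto [14, 0] = auto [0, 14] := auto_eq (by decide +kernel)
theorem com_14_4 : auto [14, 4] = auto [4, 14] := auto_eq (by decide +kernel)
theorem com_14_8 : auto [14, 8] = auto [8, 14] := auto_eq (by decide +kernel)
theorem com_14_16 : auto [14, 16] = auto [16, 14] := auto_eq (by decide +kernel)
theorem com_0_4 : auto [0, 4] = auto [4, 0] := auto_eq (by decide +kernel)
theorem com_0_8 : auto [0, 8] = auto [8, 0] := auto_eq (by decide +kernel)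
theorem com_0_16 : auto [0, 16] = auto [16, 0] := auto_eq (by decide +kernel)
theorem com_4_8 : auto [4, 8] = auto [8, 4] := auto_eq (by decide +kernel)
theorem com_4_16 : auto [4, 16] = auto [16, 4] := auto_eq (by decide +kernel)
theorem com_8_16 : auto [8, 16] = auto [16, 8] := auto_eq (by decide +kernel)

theorem com_Y_0 : auto (wY ++ [0]) = auto (0 :: wY) := auto_eq (by decide +kernel)
theorem com_Y_4 : auto (wY ++ [4]) = auto (4 :: wY) := auto_eq (by decide +kernel)
theorem com_Y_8 : auto (wY ++ [8]) = auto (8 :: wY) := auto_eq (by decide +kernel)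
theorem com_Y_16 : auto (wY ++ [16]) = auto (16 :: wY) := auto_eq (by decide +kernel)

end H13SB.X
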