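import Pool.Agent.H13.SB.X.Calc

/-!
# The nine Dehn twists

Twists number `0, ..., 5` are the twists about the chain `c_1, ..., c_6`; number `6, 7, 8` are
the twists about the curves `D = ∂(c_1,c_2,c_3)`, `X = ∂(c_3,c_4,c_5)`, `E = ∂(c_1,...,c_5)`.
Code `2j` is the twist number `j`, code `2j+1` its inverse.
-/

namespace H13SB.X

/-- The tables. -/
def tabs : List (List (List ℕ)) := [
  [[0], [1], [2, 1], [0, 3], [4], [5], [6], [7], [8], [9], [10], [11]],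
  [[0], [1], [2, 0], [1, 3], [4], [5], [6], [7], [8], [9], [10], [11]],
  [[0, 2, 1, 3, 7, 2, 0], [1, 3, 6, 2, 0, 3, 1], [2], [3], [2, 0, 2, 1, 3, 7, 2, 0, 3, 1, 3, 6, 4, 6, 2, 0, 3, 1, 3], [2, 0, 2, 1, 3, 7, 5, 7, 2, 0, 2, 1, 3, 6, 2, 0, 3, 1, 3], [2, 0, 2, 1, 3, 6, 2, 0, 3, 1, 3], [2, 0, 2, 1, 3, 7, 2, 0, 3, 1, 3], [8], [9], [10], [11]],
  [[3, 6, 2, 0, 3], [2, 1, 3, 7, 2], [2], [3], [6, 2, 0, 3, 1, 3, 7, 2, 0, 2, 1, 3, 4, 2, 0, 2, 1, 3, 7], [6, 2, 0, 3, 1, 3, 5, 2, 0, 3, 1, 3, 6, 2, 0, 2, 1, 3, 7], [6, 2, 0, 3, 1, 3, 6, 2, 0, 2, 1, 3, 7], [6, 2, 0, 3, 1, 3, 7, 2, 0, 2, 1, 3, 7], [8], [9], [10], [11]],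
  [[0], [1], [2], [3], [4], [5], [6, 5], [4, 7], [8], [9], [10], [11]],
  [[0], [1], [2], [3], [4], [5], [6, 4], [5, 7], [8], [9], [10], [11]],
  [[0], [1], [2], [3], [4, 6, 5, 7, 11, 6, 4], [5, 7, 10, 6, 4, 7, 5], [6], [7], [6, 4, 6, 5, 7, 11, 6, 4, 7, 5, 7, 10, 8, 10, 6, 4, 7, 5, 7], [6, 4, 6, 5, 7, 11, 9, 11, 6, 4, 6, 5, 7, 10, 6, 4, 7, 5, 7], [6, 4, 6, 5, 7, 10, 6, 4, 7, 5, 7], [6, 4, 6, 5, 7, 11, 6, 4, 7, 5, 7]],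
  [[0], [1], [2], [3], [7, 10, 6, 4, 7], [6, 5, 7, 11, 6], [6], [7], [10, 6, 4, 7, 5, 7, 11, 6, 4, 6, 5, 7, 8, 6, 4, 6, 5, 7, 11], [10, 6, 4, 7, 5, 7, 9, 6, 4, 7, 5, 7, 10, 6, 4, 6, 5, 7, 11], [10, 6, 4, 7, 5, 7, 10, 6, 4, 6, 5, 7, 11], [10, 6, 4, 7, 5, 7, 11, 6, 4, 6, 5, 7, 11]],
  [[0], [1], [2], [3], [4], [5], [6], [7], [8], [9], [10, 9], [8, 11]],
  [[0], [1], [2], [3], [4], [5], [6], [7], [8], [9], [10, 8], [9, 11]],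
  [[0], [1], [2], [3], [4], [5], [6], [7], [8, 10], [11, 9], [10], [11]],
  [[0], [1], [2], [3], [4], [5], [6], [7], [8, 11], [10, 9], [10], [11]],
  [[0, 2, 1, 3, 4, 2, 0, 3, 0, 2, 1, 3, 5, 2, 0, 3, 1], [0, 2, 1, 3, 4, 2, 0, 3, 1, 2, 1, 3, 5, 2, 0, 3, 1], [2, 2, 1, 3, 5, 2, 0, 3, 1], [0, 2, 1, 3, 4, 2, 0, 3, 3], [2, 0, 3, 0, 2, 1, 3, 4, 2, 0, 3, 1, 2, 1, 3], [2, 0, 3, 0, 2, 1, 3, 5, 2, 0, 3, 1, 2, 1, 3], [6, 5, 2, 0, 3, 1, 2, 1, 3], [2, 0, 3, 0, 2, 1, 3, 4, 7], [8], [9], [10], [11]],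
  [[2, 1, 3, 5, 2, 0, 3, 0, 2, 1, 3, 4, 2, 0, 3], [2, 1, 3, 5, 2, 0, 3, 1, 2, 1, 3, 4, 2, 0, 3], [2, 0, 2, 1, 3, 4, 2, 0, 3], [2, 1, 3, 5, 2, 0, 3, 1, 3], [5, 2, 0, 3, 1, 2, 1, 3, 4, 2, 0, 3, 0, 2, 1, 3, 4], [5, 2, 0, 3, 1, 2, 1, 3, 5, 2, 0, 3, 0, 2, 1, 3, 4], [6, 2, 0, 3, 0, 2, 1, 3, 4], [5, 2, 0, 3, 1, 2, 1, 3, 7], [8], [9], [10], [11]],
  [[0], [1], [2], [3], [4, 6, 5, 7, 8, 6, 4, 7, 4, 6, 5, 7, 9, 6, 4, 7, 5], [4, 6, 5, 7, 8, 6, 4, 7, 5, 6, 5, 7, 9, 6, 4, 7, 5], [6, 6, 5, 7, 9, 6, 4, 7, 5], [4, 6, 5, 7, 8, 6, 4, 7, 7], [6, 4, 7, 4, 6, 5, 7, 8, 6, 4, 7, 5, 6, 5, 7], [6, 4, 7, 4, 6, 5, 7, 9, 6, 4, 7, 5, 6, 5, 7], [10, 9, 6, 4, 7, 5, 6, 5, 7], [6, 4, 7, 4, 6, 5, 7, 8, 11]],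
  [[0], [1], [2], [3], [6, 5, 7, 9, 6, 4, 7, 4, 6, 5, 7, 8, 6, 4, 7], [6, 5, 7, 9, 6, 4, 7, 5, 6, 5, 7, 8, 6, 4, 7], [6, 4, 6, 5, 7, 8, 6, 4, 7], [6, 5, 7, 9, 6, 4, 7, 5, 7], [9, 6, 4, 7, 5, 6, 5, 7, 8, 6, 4, 7, 4, 6, 5, 7, 8], [9, 6, 4, 7, 5, 6, 5, 7, 9, 6, 4, 7, 4, 6, 5, 7, 8], [10, 6, 4, 7, 4, 6, 5, 7, 8], [9, 6, 4, 7, 5, 6, 5, 7, 11]],
  [[0, 2, 1, 3, 4, 6, 5, 7, 8, 6, 4, 7, 2, 0, 3, 0, 2, 1, 3, 6, 5, 7, 9, 6, 4, 7, 5, 2, 0, 3, 1], [0, 2, 1, 3, 4, 6, 5, 7, 8, 6, 4, 7, 2, 0, 3, 1, 2, 1, 3, 6, 5, 7, 9, 6, 4, 7, 5, 2, 0, 3, 1], [2, 2, 1, 3, 6, 5, 7, 9, 6, 4, 7, 5, 2, 0, 3, 1], [0, 2, 1, 3, 4, 6, 5, 7, 8, 6, 4, 7, 2, 0, 3, 3], [2, 0, 3, 0, 2, 1, 3, 4, 6, 5, 7, 8, 6, 4, 7, 4, 6, 5, 7, 9, 6, 4, 7, 5, 2, 0, 3, 1, 2, 1, 3], [2, 0, 3, 0, 2, 1, 3, 4, 6, 5, 7, 8, 6, 4, 7, 5, 6, 5,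 7, 9, 6, 4, 7, 5, 2, 0, 3, 1, 2, 1, 3], [6, 6, 5, 7, 9, 6, 4, 7, 5, 2, 0, 3, 1, 2, 1, 3], [2, 0, 3, 0, 2, 1, 3, 4, 6, 5, 7, 8, 6, 4, 7, 7], [6, 4, 7, 2, 0, 3, 0, 2, 1, 3, 4, 6, 5, 7, 8, 6, 4, 7, 5, 2, 0, 3, 1, 2, 1, 3, 6, 5, 7], [6, 4, 7, 2, 0, 3, 0, 2, 1, 3, 4, 6, 5, 7, 9, 6, 4, 7, 5, 2, 0, 3, 1, 2, 1, 3, 6, 5, 7], [10, 9, 6, 4, 7, 5, 2, 0, 3, 1, 2, 1, 3, 6, 5, 7], [6, 4, 7, 2, 0, 3, 0, 2, 1, 3, 4, 6, 5, 7, 8, 11]],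
  [[2, 1, 3, 6, 5, 7, 9, 6, 4, 7, 5, 2, 0, 3, 0, 2, 1, 3, 4, 6, 5, 7, 8, 6, 4, 7, 2, 0, 3], [2, 1, 3, 6, 5, 7, 9, 6, 4, 7, 5, 2, 0, 3, 1, 2, 1, 3, 4, 6, 5, 7, 8, 6, 4, 7, 2, 0, 3], [2, 0, 2, 1, 3, 4, 6, 5, 7, 8, 6, 4, 7, 2, 0, 3], [2, 1, 3, 6, 5, 7, 9, 6, 4, 7, 5, 2, 0, 3, 1, 3], [6, 5, 7, 9, 6, 4, 7, 5, 2, 0, 3, 1, 2, 1, 3, 4, 2, 0, 3, 0, 2, 1, 3, 4, 6, 5, 7, 8, 6, 4, 7], [6, 5, 7, 9, 6, 4, 7, 5, 2, 0, 3, 1, 2, 1, 3, 5, 2, 0, 3, 0, 2, 1, 3, 4, 6, 5, 7, 8, 6, 4, 7], [6, 2, 0, 3, 0, 2, 1, 3, 4, 6, 5, 7, 8, 6, 4, 7], [6, 5, 7, 9, 6, 4, 7, 5, 2, 0, 3, 1, 2, 1, 3, 7], [9, 6, 4, 7, 5, 2, 0, 3, 1, 2, 1, 3, 6, 5, 7, 8, 6, 4, 7, 2, 0, 3, 0, 2, 1, 3, 4, 6, 5, 7, 8], [9, 6, 4, 7, 5, 2, 0, 3, 1, 2, 1, 3, 6, 5, 7, 9, 6, 4, 7, 2, 0, 3, 0, 2, 1, 3, 4, 6, 5, 7, 8], [10, 6, 4, 7, 2, 0, 3, 0,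 2, 1, 3, 4, 6, 5, 7, 8], [9, 6, 4, 7, 5, 2, 0, 3, 1, 2, 1, 3, 6, 5, 7, 11]]]

/-- Apply a word in the twists to a word. -/
def subs (ws : List ℕ) (w : List ℕ) : List ℕ :=
  ws.foldr (fun k acc => subst (tabs.getD k []) acc) w

theorem okT_tabs : ∀ k < 18, okT (tabs.getD k []) = true := by decide +kernel

theorem invT_tabs : ∀ k < 18, invT (tabs.getD k []) (tabs.getD (linv k) []) = true := by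
  decide +kernel

theorem invT_tabs' : ∀ k < 18, invT (tabs.getD (linv k) []) (tabs.getD k []) = true := by
  decide +kernel

theorem linv_lt : ∀ k < 18, linv k < 18 := by decide

/-- The twist with code `k`. -/
def twist (k : ℕ) : MulAut F3 :=
  if h : k < 18 then mkAut (tabs.getD k []) (tabs.getD (linv k) []) (okT_tabs k h)
    (okT_tabs _ (linv_lt k h)) (invT_tabs k h) (invT_tabs' k h) else 1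

/-- The automorphism given by a word in the twists. -/
def auto (ws : List ℕ) : MulAut F3 := (ws.map twist).prod

theorem auto_nil : auto [] = 1 := rfl
theorem auto_cons (k : ℕ) (ws : List ℕ) : auto (k :: ws) = twist k * auto ws := by simp [auto]
theorem auto_append (u w : List ℕ) : auto (u ++ w) = auto u * auto w := by simp [auto]

theorem twist_apply {k : ℕ} (h : k < 18) (w : List ℕ) :
    twist k (wval w) = wval (subst (tabs.getD k []) w) := by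
  rw [twist, dif_pos h]
  change endo _ (wval w) = _
  rw [wval_subst _ (endo (tabs.getD k [])) (endo_val _ (okT_tabs k h))]

theorem auto_apply (ws : List ℕ) (hw : ∀ k ∈ ws, k < 18) (w : List ℕ) :
    auto ws (wval w) = wval (subs ws w) := by
  induction ws with
  | nil => rfl
  | cons k ws ih =>
    rw [auto_cons, MulAut.mul_apply, ih (fun j hj => hw j (List.mem_cons_of_mem _ hj)),
      twist_apply (hw k List.mem_cons_self)]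
    rfl

theorem of_eq_wval (x : Gen 3) : FreeGroup.of x = wval [2 * idx x] := by
  have h2 : idx x < 6 := idx_lt x
  have h3 : 2 * idx x < 12 := by omega
  have h4 : 2 * idx x % 2 = 0 := by omega
  have h5 : 2 * idx x / 2 = idx x := by omega
  simp [wval, val, h3, h4, h5, gcode_idx]

/-- Test of equality of two words in the twists. -/
def eqAuto (u v : List ℕ) : Bool :=
  u.all (fun k => Nat.ble k 17) && v.all (fun k => Nat.ble k 17) &&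
    (List.range 6).all fun i => subs u [2 * i] == subs v [2 * i]

theorem auto_eq {u v : List ℕ} (h : eqAuto u v = true) : auto u = auto v := by
  rw [eqAuto, Bool.and_eq_true, Bool.and_eq_true, List.all_eq_true, List.all_eq_true,
    List.all_eq_true] at h
  obtain ⟨⟨h1, h2⟩, h3⟩ := h
  apply MulEquiv.toMonoidHom_injective
  apply FreeGroup.ext_hom
  intro x
  change auto u (FreeGroup.of x) = auto v (FreeGroup.of x)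
  have h4 := h3 (idx x) (List.mem_range.2 (idx_lt x))
  rw [beq_iff_eq] at h4
  rw [of_eq_wval, auto_apply u (fun k hk => by
      have := Nat.le_of_ble_eq_true (h1 k hk); omega),
    auto_apply v (fun k hk => by
      have := Nat.le_of_ble_eq_true (h2 k hk); omega), h4]

end H13SB.X
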